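import Mathlib
import Pool.Agent.H47.Catalan

namespace Pool.Agent.Results.MP_e1ef61_al.NotQuasivariety

/-- terms in the signature (mul, l, r) -/
inductive Tm : Type
  | var : ℕ → Tm
  | mul : Tm → Tm → Tm
  | l : Tm → Tm
  | r : Tm → Tm

def ev {S : Type} [Mul S] (l r : S → S) (v : ℕ → S) : Tm → S
  | .var i => v i
  | .mul s t => ev l r v s * ev l r v t
  | .l s => l (ev l r v s)
  | .r s => r (ev l r v s)

/-- satisfaction of the quasi-identity with premises `q.1` and conclusion `q.2` -/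
def Sat {S : Type} [Mul S] (l r : S → S) (q : List (Tm × Tm) × Tm × Tm) : Prop :=
  ∀ v : ℕ → S, (∀ p ∈ q.1, ev l r v p.1 = ev l r v p.2) → ev l r v q.2.1 = ev l r v q.2.2

/-- `l x` and `r x` are the unique idempotents in the L*-class and the R*-class of `x` -/
def Amiable {S : Type} [Semigroup S] (l r : S → S) : Prop :=
  ∀ x e : S, ((e * e = e ∧ ∀ a b : WithOne S,
      (x : WithOne S) * a = x * b ↔ (e : WithOne S) * a = e * b) ↔ e = l x) ∧
    ((e * e = e ∧ ∀ a b : WithOne S,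
      a * (x : WithOne S) = b * x ↔ a * (e : WithOne S) = b * e) ↔ e = r x)

/-- the alternating word in two idempotents with first letter `s` and length `m + 1` -/
structure F where
  s : Fin 2
  m : ℕ

instance : Mul F := ⟨fun x y => ⟨x.s, x.m + y.m + (x.s + x.m + y.s) % 2⟩⟩

open Pool.Agent.H47.Catalan in
theorem result : ¬ ∃ Q : Set (List (Tm × Tm) × Tm × Tm),
    ∀ (S : Type) [Semigroup S] (l r : S → S), (∀ q ∈ Q, Sat l r q) ↔
      (Amiable l r ∧ ¬ ∃ φ : F →ₙ* S, Function.Injective φ) := by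
  rintro ⟨Q, hQ⟩
  choose l hl hl' using fun n (x : C n) => amL x
  choose r hr hr' using fun n (x : C n) => amR x
  have h1 : ∀ n, ∀ q ∈ Q, Sat (l n) (r n) q := fun n => (hQ (C n) (l n) (r n)).mpr
    ⟨fun x e => ⟨⟨hl' n x e, fun h => h ▸ hl n x⟩, ⟨hr' n x e, fun h => h ▸ hr n x⟩⟩, fun ⟨φ, h⟩ =>
      not_injective_infinite_finite (fun m : ℕ => φ ⟨0, m⟩) fun a b e => congrArg F.m (h e)⟩
  have h2 : ∀ (v : ℕ → ∀ n, C n) t n, ev (fun x n => l n (x n)) (fun x n => r n (x n)) v t n =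
      ev (l n) (r n) (fun i => v i n) t := fun v t n => by
    induction t with
    | var i => rfl
    | mul s t h h' => exact congrArg₂ (· * ·) h h'
    | l s h => exact congrArg (l n) h
    | r s h => exact congrArg (r n) h
  refine ((hQ (∀ n, C n) (fun x n => l n (x n)) (fun x n => r n (x n))).mp fun q hq v hv => ?_).2
    ⟨⟨fun x n => W n x.s x.m, fun x y => funext fun n => W_mul n _ _ _ _⟩, ?_⟩
  · funext n
    rw [h2, h2]
    exact h1 n q hq _ fun p hp => by rw [← h2, ← h2, hv p hp]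
  · rintro ⟨s, m⟩ ⟨t, k⟩ h
    obtain ⟨h3, h4⟩ := W_inj s m t k s.2 t.2 (congrFun h)
    rw [Fin.ext h3, h4]

end Pool.Agent.Results.MP_e1ef61_al.NotQuasivariety
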